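import Pool.Agent.Lib.MP_8865d3_nt.Am.Main

namespace Pool.Agent.Results.MP_8865d3_nt.AbelianIdeals

open Height MvPolynomial NumberField MeasureTheory

/-- The local height at `v` of the divisor of a form of degree `d` in `x` and `β` in the fibre at
the point `(x, X)`: the form has the value `y`, and `X` has degree `b` in `x`. -/
noncomputable def lam {k : Type} [Field k] {g n : ℕ} (v : AbsoluteValue k ℝ) (d b β : ℕ)
    (x : Fin g → k) (X : Fin n → k) (y : k) : ℝ :=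
  Real.log ((⨆ a, v (x a)) ^ d * (⨆ i, v (X i)) ^ β / ((⨆ a, v (x a)) ^ (b * β) * v y))

/-- For every `0 < c < 1` the function `|f|² / (∑ |G m|²) ^ c` of `t` is locally integrable on
`t ≠ 0` for a Zariski dense set of complex zeros `x` of `I`. -/
def InMultMinus {k : Type} [Field k] {g r a : ℕ} (σ : k →+* ℂ) (I : Ideal (MvPolynomial (Fin g) k))
    (G : Fin a → MvPolynomial (Fin r) (MvPolynomial (Fin g) k))
    (f : MvPolynomial (Fin r) (MvPolynomial (Fin g) k)) : Prop :=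
  ∀ c : ℝ, 0 < c → c < 1 → ∀ (Θ : MvPolynomial (Fin g) k) (s : ℕ), Θ.IsHomogeneous s → Θ ∉ I →
    ∃ x : Fin g → ℂ, (∀ P ∈ I, eval₂ σ x P = 0) ∧ eval₂ σ x Θ ≠ 0 ∧
      LocallyIntegrableOn (fun t : Fin r → ℂ => ‖eval₂ (eval₂Hom σ x) t f‖ ^ 2 /
        (∑ m, ‖eval₂ (eval₂Hom σ x) t (G m)‖ ^ 2) ^ c) {t | t ≠ 0} volume

/-- The inequality with the multiplier ideal correction for rational points on a projective bundle
over an abelian variety. The abelian variety is the zero set of `I`, its points over the algebraic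
closure form the group `A` with homogeneous coordinates `co`, and the map sending `(p, q)` to
`(p + q, p - q)` is given by the forms `Φ`. The fibre over `x` is the column space of `B (x)`, and
`p` is the vector of its Pluecker coordinates. -/
theorem result (k : Type) [Field k] [NumberField k] (σ : k →+* ℂ) (g n r q b a a' : ℕ)
    (I : Ideal (MvPolynomial (Fin g) k)) (hI : ∀ P ∈ I, ∀ l, homogeneousComponent l P ∈ I)
    (hp : (I.map (MvPolynomial.map (algebraMap k (AlgebraicClosure k)))).IsPrime)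
    (A : Type) [AddCommGroup A] (co : A → Fin g → AlgebraicClosure k) (h0 : ∀ p, co p ≠ 0)
    (hz : ∀ p, ∀ P ∈ I, aeval (co p) P = 0)
    (hs : ∀ v : Fin g → AlgebraicClosure k, v ≠ 0 → (∀ P ∈ I, aeval v P = 0) →
      ∃! p, ∃ c : AlgebraicClosure k, v = c • co p)
    (Φ : Fin g → Fin g → MvPolynomial (Fin g ⊕ Fin g) k)
    (hΦ : ∀ a b, (Φ a b).IsWeightedHomogeneous
      (Sum.elim (fun _ => ((1, 0) : ℕ × ℕ)) fun _ => (0, 1)) (2, 2))
    (law : ∀ p q, ∃ c : AlgebraicClosure k, c ≠ 0 ∧ ∀ a b,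
      aeval (Sum.elim (co p) (co q)) (Φ a b) = c * (co (p + q) a * co (p - q) b))
    (B : Matrix (Fin n) (Fin (r + 1)) (MvPolynomial (Fin g) k))
    (hB : ∀ i j, (B i j).IsHomogeneous b)
    (L : Fin q → Fin (r + 1) → MvPolynomial (Fin g) k) (h : Fin (a + 1) → MvPolynomial (Fin g) k)
    (e : Fin (a + 1) → Fin q → ℕ)
    (G : Fin (a + 1) → MvPolynomial (Fin (r + 1)) (MvPolynomial (Fin g) k))
    (hG : ∀ i, G i = C (h i) * ∏ j, (∑ u, C (L j u) * X u) ^ e i j) (dG : Fin (a + 1) → ℕ)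
    (hdG : ∀ i μ, (coeff μ (G i)).IsHomogeneous (dG i))
    (f : Fin (a' + 1) → MvPolynomial (Fin (r + 1)) (MvPolynomial (Fin g) k))
    (β df : Fin (a' + 1) → ℕ) (hf : ∀ l, (f l).IsHomogeneous (β l) ∧
      (∀ μ, (coeff μ (f l)).IsHomogeneous (df l)) ∧ InMultMinus σ I G (f l))
    (ε : ℝ) (hε : 0 < ε) :
    ∃ (F : MvPolynomial (Fin (r + 1)) (MvPolynomial (Fin g) k)) (s s' : ℕ), F.IsHomogeneous s ∧
      (∀ μ, (coeff μ F).IsHomogeneous s') ∧ (∃ μ, coeff μ F ∉ I) ∧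
      ∀ S : Finset (FinitePlace k), ∃ C : ℝ, ∀ (x : Fin g → k) (t : Fin (r + 1) → k)
        (X : Fin n → k) (p : (Fin (r + 1) → Fin n) → k) (T : AbsoluteValue k ℝ → ℝ), x ≠ 0 →
        (∀ P ∈ I, eval x P = 0) → X = (B.map (eval x)).mulVec t →
        p = (fun u => ((B.map (eval x)).submatrix u id).det) → p ≠ 0 → eval₂ (eval x) t F ≠ 0 →
        (∀ i, eval₂ (eval x) t (G i) ≠ 0) → (∀ l, eval₂ (eval x) t (f l) ≠ 0) →
        T = (fun v => (⨅ i, lam v (dG i) b (∑ j, e i j) x X (eval₂ (eval x) t (G i))) -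
          ⨅ l, lam v (df l) b (β l) x X (eval₂ (eval x) t (f l))) →
        (logHeight p - (r + 1) * logHeight X) +
          (∑ w : InfinitePlace k, w.mult * T w.1 + ∑ w ∈ S, T w.1) ≤
          ε * (logHeight x + logHeight X) + C := by
  obtain rfl : G = fun i => Pool.Agent.Lib.MP_8865d3_nt.En.prd L (h i) (e i) := funext hG
  obtain ⟨V, rfl, -⟩ :=
    Pool.Agent.Lib.MP_651af7_nt.Av.exists_av (AlgebraicClosure k) I hI hp A co h0 hz hs Φ hΦ law
  obtain ⟨F, ⟨⟨s, h1⟩, ⟨s', h2⟩, h3⟩, hF⟩ := Pool.Agent.Lib.MP_8865d3_nt.Am.multB V σ B hB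
    L h e hdG f β (fun l => (hf l).2.1) (fun l => (hf l).1) (fun l => (hf l).2.2) hε
  refine ⟨F, s, s', h1, h2, h3, fun S => ?_⟩
  obtain ⟨C, hC⟩ := hF S
  refine ⟨C, ?_⟩
  rintro x t _ _ _ - a2 rfl rfl a3 a4 a5 a6 rfl
  have h' := hC x t a2 a4 a3 a5 a6
  rw [Fintype.sum_sum_type] at h'
  rw [← Finset.sum_coe_sort S]
  simp only [Pool.Agent.Lib.MP_651af7_nt.Rt.mu, Pool.Agent.Lib.MP_651af7_nt.Rt.av, Sum.elim_inl,
    Sum.elim_inr, Nat.cast_one, one_mul] at h'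
  exact (add_comm (G := ℝ) _ _).trans_le (add_sub_assoc (G := ℝ) _ _ _ ▸
    sub_le_iff_le_add'.2 (h'.trans_eq (add_assoc _ _ _)))

end Pool.Agent.Results.MP_8865d3_nt.AbelianIdeals
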