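import Pool.Agent.Lib.MP_8865d3_nt.Ae.Main

namespace Pool.Agent.Lib.MP_8865d3_nt.Old.AbelianScrolls

open Height MvPolynomial NumberField Pool.Agent.Lib
open MP_651af7_nt.Bx MP_651af7_nt.Ds MP_651af7_nt.Et MP_651af7_nt.Sc
open MP_8865d3_nt.Lr MP_8865d3_nt.Ai MP_8865d3_nt.Ae

/-- Vojta's inequality with the multiplier ideal correction for rational points on varieties with an
étale cover that is a scroll over an abelian variety, for ideals whose pull-back is generated on the
generic fibre by products of linear forms. -/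
theorem result (k : Type) [Field k] [NumberField k] (N N' M n g b : ℕ)
    (I : Ideal (MvPolynomial (Fin N) k)) (hI : Var I) (hs : Smooth I g)
    (I' : Ideal (MvPolynomial (Fin N') (AlgebraicClosure k))) (hI' : Var I')
    (f : (Fin N' → AlgebraicClosure k) → Fin N → AlgebraicClosure k)
    (hf : Etale I' (I.map (MvPolynomial.map (algebraMap k (AlgebraicClosure k)))) f)
    (J : Ideal (MvPolynomial (Fin M) (AlgebraicClosure k))) (hJ : Abelian J)
    (B : Fin N' → Fin (n + 1) → MvPolynomial (Fin M) (AlgebraicClosure k))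
    (hB : ∀ i j, (B i j).IsHomogeneous b) (hb : ∃ φ χ, BirP I' J φ χ fun i => lin (B i))
    (a a' e e' : ℕ) (F : Fin a → MvPolynomial (Fin N) k) (hF : ∀ l, (F l).IsHomogeneous e)
    (hF' : Mono J (aeval (fun i => lin (B i)) '' pull I' f F))
    (G : Fin a' → MvPolynomial (Fin N) k) (hG : ∀ l, (G l).IsHomogeneous e')
    (K : Type) [Field K] [Algebra k K] (ξ : Fin N → K) (m : ℕ) (η : Fin m → K)
    (hr : LogRes I g F ξ η) (hm : ∀ l, ∀ c : ℚ, 0 < c → c < 1 → InMult g F ξ η c (G l))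
    (ε : ℝ) (hε : 0 < ε) :
    ∃ (Θ : MvPolynomial (Fin N) k) (t : ℕ), Θ.IsHomogeneous t ∧ Θ ∉ I ∧
      ∀ S : Finset (FinitePlace k), ∃ C : ℝ, ∀ x : Fin N → k, x ≠ 0 → (∀ P ∈ I, eval x P = 0) →
        eval x Θ ≠ 0 → (fun l => eval x (F l)) ≠ 0 → (fun l => eval x (G l)) ≠ 0 →
        Module.finrank k (tsp I x) = g + 1 ∧
        ∀ β : Fin (g + 1) → Fin N → k, LinearIndependent k β → (∀ l, β l ∈ tsp I x) →
        hK x β + (∑ w : InfinitePlace k, w.mult * (lam w.1 F e x - lam w.1 G e' x) +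
          ∑ w ∈ S, (lam w.1 F e x - lam w.1 G e' x)) ≤ ε * logHeight x + C :=
  MP_8865d3_nt.Ae.main hI hs hI' hf hJ hB hb hF hG hF' hr hm hε

end Pool.Agent.Lib.MP_8865d3_nt.Old.AbelianScrolls
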