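import Pool.Agent.Lib.MP_8865d3_nt.Sv.Fin

/-! The inequality with the multiplier ideal correction for arbitrary ideals on blow-ups of the
product of an abelian variety and a projective space, up to the counting function of the coordinate
hyperplanes.

The abelian variety is the zero set of `I₀`, its points over the algebraic closure form the group
`A` with homogeneous coordinates `co`, and the map sending `(p, q)` to `(p + q, p - q)` is given by
the forms `Φ`.  The variety of the problem is the closure in `ℙ^(m-1) × ℙ^n × ℙ^κ` of the graph of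
the rational map on `A × ℙ^n` given by the forms `G j`.  A closed subscheme of it is given by a
finite family of trihomogeneous forms. -/

namespace Pool.Agent.Results.MP_8865d3_nt.AbelianTorus

open Height MvPolynomial NumberField

variable {k ι κ α : Type} [Field k] {n : ℕ}

/-- The bidegree of the variables of two blocks. -/
def bw (ι κ : Type) : ι ⊕ κ → ℕ × ℕ := Sum.elim (fun _ => (1, 0)) fun _ => (0, 1)

/-- The tridegree of the variables of three blocks. -/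
def tw (ι : Type) (n : ℕ) (κ : Type) : (ι ⊕ Fin (n + 1)) ⊕ κ → ℕ × ℕ × ℕ :=
  Sum.elim (Sum.elim (fun _ => (1, 0, 0)) fun _ => (0, 1, 0)) fun _ => (0, 0, 1)

/-- The coordinates `(x, y, G (x, y))` of the point of the graph over `(x, y)`. -/
noncomputable def gr (G : κ → MvPolynomial (ι ⊕ Fin (n + 1)) k) (x : ι → k) (y : Fin (n + 1) → k) :
    (ι ⊕ Fin (n + 1)) ⊕ κ → k :=
  Sum.elim (Sum.elim x y) fun j => eval (Sum.elim x y) (G j)

/-- The forms `F l (X, Y, G (X, Y))`. -/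
noncomputable def pb (G : κ → MvPolynomial (ι ⊕ Fin (n + 1)) k)
    (F : α → MvPolynomial ((ι ⊕ Fin (n + 1)) ⊕ κ) k) (l : α) : MvPolynomial (ι ⊕ Fin (n + 1)) k :=
  aeval (Sum.elim X G) (F l)

/-- The Weil height attached to the subscheme defined by forms `F l` of tridegree `e`. -/
noncomputable def glHt [NumberField k] (e : ℕ × ℕ × ℕ)
    (F : α → MvPolynomial ((ι ⊕ Fin (n + 1)) ⊕ κ) k) (p : (ι ⊕ Fin (n + 1)) ⊕ κ → k) : ℝ :=
  e.1 * logHeight (fun i => p (.inl (.inl i))) + e.2.1 * logHeight (fun i => p (.inl (.inr i))) +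
    e.2.2 * logHeight (fun j => p (.inr j)) - logHeight fun l => eval p (F l)

/-- The local height at `v` attached to the subscheme defined by forms `F l` of tridegree `e`. -/
noncomputable def locHt (v : AbsoluteValue k ℝ) (e : ℕ × ℕ × ℕ)
    (F : α → MvPolynomial ((ι ⊕ Fin (n + 1)) ⊕ κ) k) (p : (ι ⊕ Fin (n + 1)) ⊕ κ → k) : ℝ :=
  e.1 * Real.log (⨆ i, v (p (.inl (.inl i)))) + e.2.1 * Real.log (⨆ i, v (p (.inl (.inr i)))) +
    e.2.2 * Real.log (⨆ j, v (p (.inr j))) - Real.log (⨆ l, v (eval p (F l)))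

/-- The counting function of the coordinate hyperplanes of `ℙ^n` outside `S`. -/
noncomputable def cnt [NumberField k] (S : Finset (FinitePlace k)) (y : Fin (n + 1) → k) : ℝ :=
  ∑ᶠ v ∈ (S : Set (FinitePlace k))ᶜ, Real.log ((⨆ j, v (y j)) ^ (n + 1) / v (∏ j, y j))

/-- The least order in `t` of the polynomials `Γ l (X, t ^ lam * Y)` modulo `P`. -/
noncomputable def ord (P : Ideal (MvPolynomial (ι ⊕ Fin (n + 1)) k)) (lam : Fin (n + 1) → ℕ)
    (Γ : α → MvPolynomial (ι ⊕ Fin (n + 1)) k) : ℕ∞ :=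
  ⨅ l, (aeval (Sum.elim (fun a => Polynomial.C (Ideal.Quotient.mk P (X (.inl a))))
    fun j => Polynomial.X ^ lam j * Polynomial.C (Ideal.Quotient.mk P (X (.inr j)))) (Γ l) :
      Polynomial (MvPolynomial (ι ⊕ Fin (n + 1)) k ⧸ P)).trailingDegree

theorem result (k : Type) [Field k] [NumberField k] (m n : ℕ)
    (I₀ : Ideal (MvPolynomial (Fin m) k)) (hI₀ : ∀ f ∈ I₀, ∀ l, homogeneousComponent l f ∈ I₀)
    (hp : (I₀.map (MvPolynomial.map (algebraMap k (AlgebraicClosure k)))).IsPrime)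
    (A : Type) [AddCommGroup A] (co : A → Fin m → AlgebraicClosure k) (h0 : ∀ a, co a ≠ 0)
    (hz : ∀ a, ∀ f ∈ I₀, aeval (co a) f = 0)
    (hs : ∀ v : Fin m → AlgebraicClosure k, v ≠ 0 → (∀ f ∈ I₀, aeval v f = 0) →
      ∃! a, ∃ c : AlgebraicClosure k, v = c • co a)
    (Φ : Fin m → Fin m → MvPolynomial (Fin m ⊕ Fin m) k)
    (hΦ : ∀ i j, (Φ i j).IsWeightedHomogeneous (bw (Fin m) (Fin m)) (2, 2))
    (law : ∀ a b, ∃ c : AlgebraicClosure k, c ≠ 0 ∧ ∀ i j,
      aeval (Sum.elim (co a) (co b)) (Φ i j) = c * (co (a + b) i * co (a - b) j))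
    (P : Ideal (MvPolynomial (Fin m ⊕ Fin (n + 1)) k)) (hP : P = I₀.map (rename Sum.inl))
    (κ α β γ : Type) [Fintype κ] [Fintype α] [Fintype β] [Fintype γ]
    (G : κ → MvPolynomial (Fin m ⊕ Fin (n + 1)) k) (d : ℕ × ℕ)
    (hG : ∀ j, (G j).IsWeightedHomogeneous (bw (Fin m) (Fin (n + 1))) d)
    (F : α → MvPolynomial ((Fin m ⊕ Fin (n + 1)) ⊕ κ) k)
    (I : β → MvPolynomial ((Fin m ⊕ Fin (n + 1)) ⊕ κ) k)
    (J : γ → MvPolynomial ((Fin m ⊕ Fin (n + 1)) ⊕ κ) k) (eF eI eJ : ℕ × ℕ × ℕ)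
    (hF : ∀ l, (F l).IsWeightedHomogeneous (tw (Fin m) n κ) eF)
    (hI : ∀ l, (I l).IsWeightedHomogeneous (tw (Fin m) n κ) eI)
    (hJ : ∀ l, (J l).IsWeightedHomogeneous (tw (Fin m) n κ) eJ)
    (hc : 2 ≤ ((Ideal.span (Set.range (pb G F))).map (Ideal.Quotient.mk P)).height)
    (hv : ∀ lam : Fin (n + 1) → ℕ, (∃ j, lam j = 0) →
      ord P lam (pb G F) + ord P lam (pb G I) + eJ.2.2 * ord P lam G ≤
        (∑ j, lam j : ℕ) + ord P lam (pb G J) + (eF.2.2 + eI.2.2 : ℕ) * ord P lam G)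
    (ε : ℝ) (hε : 0 < ε) :
    ∃ (Θ : MvPolynomial (Fin m ⊕ Fin (n + 1)) k) (e : ℕ × ℕ),
      Θ.IsWeightedHomogeneous (bw (Fin m) (Fin (n + 1))) e ∧ Θ ∉ P ∧
      ∀ S : Finset (FinitePlace k), ∃ c C : ℝ, ∀ (x : Fin m → k) (y : Fin (n + 1) → k)
        (p : (Fin m ⊕ Fin (n + 1)) ⊕ κ → k), p = gr G x y → x ≠ 0 → (∀ f ∈ I₀, eval x f = 0) →
        eval (Sum.elim x y) Θ ≠ 0 → (fun j => p (.inr j)) ≠ 0 → (fun l => eval p (I l)) ≠ 0 →
        (fun l => eval p (J l)) ≠ 0 →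
        (∀ j, y j ≠ 0) ∧ (fun l => eval p (F l)) ≠ 0 ∧
        -(n + 1) * logHeight y + glHt eF F p +
          (∑ w : InfinitePlace k, w.mult * (locHt w.1 eI I p - locHt w.1 eJ J p) +
            ∑ w ∈ S, (locHt w.1 eI I p - locHt w.1 eJ J p)) ≤
          ε * (logHeight x + logHeight y) + c * cnt S y + C := by
  subst hP
  obtain ⟨Θ, e, h1, h2, h3⟩ := Pool.Agent.Lib.MP_8865d3_nt.Sv.vojta I₀ hI₀ hp A co h0 hz hs Φ hΦ law
    hG hF hI hJ hc hv hε
  refine ⟨Θ, e, h1, h2, fun S => ?_⟩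
  obtain ⟨c, C, h4⟩ := h3 S
  refine ⟨c, C, ?_⟩
  rintro x y _ rfl
  exact h4 x y

end Pool.Agent.Results.MP_8865d3_nt.AbelianTorus
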