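import Pool.Agent.Lib.MP_8865d3_nt.Lr.Fin
import Pool.Agent.Lib.MP_651af7_nt.Cu.VModel

/-! Vojta's inequality with the multiplier ideal correction, for arbitrary ideals on smooth
projective varieties birational to the product of an abelian variety and a projective space, up to
the counting function of the coordinate hyperplanes.

The variety is the zero set of `I`. The ideal sheaf is generated by the forms `F`; the forms `G`
are sections of the multiplier ideal, which is defined by the log resolution with generic point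
`η`. The height of the canonical class is read from the Gauss map. -/

namespace Pool.Agent.Results.MP_8865d3_nt.BirationalProduct

open Height MvPolynomial NumberField Pool.Agent.Lib
open MP_651af7_nt.Bx MP_651af7_nt.Ds MP_8865d3_nt.Lr

theorem result (k : Type) [Field k] [NumberField k] (N M n g : ℕ)
    (I : Ideal (MvPolynomial (Fin N) k)) (hI : Var I) (hs : Smooth I g)
    (J : Ideal (MvPolynomial (Fin M) (AlgebraicClosure k))) (hJ : Abelian J)
    (χ : Fin (n + 1) → MvPolynomial (Fin N) k)
    (hb : ∃ φ ψ, BirP (I.map (MvPolynomial.map (algebraMap k (AlgebraicClosure k)))) J φ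
      (fun j => MvPolynomial.map (algebraMap k (AlgebraicClosure k)) (χ j)) ψ)
    (a b e e' : ℕ) (F : Fin a → MvPolynomial (Fin N) k) (hF : ∀ l, (F l).IsHomogeneous e)
    (G : Fin b → MvPolynomial (Fin N) k) (hG : ∀ l, (G l).IsHomogeneous e')
    (K : Type) [Field K] [Algebra k K] (ξ : Fin N → K) (N' : ℕ) (η : Fin N' → K)
    (hr : LogRes I g F ξ η) (hm : ∀ l, ∀ c : ℚ, 0 < c → c < 1 → InMult g F ξ η c (G l))
    (ε : ℝ) (hε : 0 < ε) :
    ∃ (Θ : MvPolynomial (Fin N) k) (t : ℕ), Θ.IsHomogeneous t ∧ Θ ∉ I ∧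
      ∀ S : Finset (FinitePlace k), ∃ c C : ℝ, ∀ x : Fin N → k, x ≠ 0 → (∀ P ∈ I, eval x P = 0) →
        eval x Θ ≠ 0 → (fun l => eval x (F l)) ≠ 0 → (fun l => eval x (G l)) ≠ 0 →
        (∀ j, eval x (χ j) ≠ 0) ∧ Module.finrank k (tsp I x) = g + 1 ∧
        ∀ β : Fin (g + 1) → Fin N → k, LinearIndependent k β → (∀ l, β l ∈ tsp I x) →
        hK x β + (∑ w : InfinitePlace k, w.mult * (lam w.1 F e x - lam w.1 G e' x) +
          ∑ w ∈ S, (lam w.1 F e x - lam w.1 G e' x)) ≤
          ε * logHeight x + c * cnt S (fun j => eval x (χ j)) + C := by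
  obtain ⟨A, _, co, h1, h2⟩ := hJ
  obtain ⟨φ, ψ, hb⟩ := hb
  exact of_model hI hs h1 (MP_651af7_nt.Cu.model h1 h2) hb hF hG hr hm hε

end Pool.Agent.Results.MP_8865d3_nt.BirationalProduct
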