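import Pool.Agent.Lib.MP_651af7_nt.Cq.Main

/-! Vojta's inequality with the multiplier ideal correction, for arbitrary ideals on smooth
projective varieties with a finite étale cover birational to the projective cone over an abelian
variety, up to the counting function of the vertex and of the section at infinity.

The variety is the zero set of `I` and the cover is the zero set of `I'`. The ideal sheaf is
generated by the forms `F`; the forms `G` are sections of the multiplier ideal, which is defined by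
the log resolution with generic point `η`. The abelian variety is the zero set of `J`, its points
form the group `A` with homogeneous coordinates `co`, and the forms `Φ` give the map sending
`(p, q)` to `(p + q, p - q)`. The cone has the extra coordinate `none`. The height of the canonical
class is read from the Gauss map. -/

namespace Pool.Agent.Lib.MP_8865d3_nt.Old.ConeIdeals

open Height MvPolynomial NumberField Pool.Agent.Lib
open MP_651af7_nt.Bx MP_651af7_nt.Ds MP_651af7_nt.Et MP_8865d3_nt

theorem result (k : Type) [Field k] [NumberField k] (N N' M g : ℕ) (hg : 2 ≤ g)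
    (I : Ideal (MvPolynomial (Fin N) k)) (hI : Var I) (hs : Smooth I g)
    (I' : Ideal (MvPolynomial (Fin N') (AlgebraicClosure k))) (hI' : Var I')
    (f : (Fin N' → AlgebraicClosure k) → Fin N → AlgebraicClosure k)
    (hf : Etale I' (I.map (MvPolynomial.map (algebraMap k (AlgebraicClosure k)))) f)
    (J : Ideal (MvPolynomial (Fin M) (AlgebraicClosure k))) (A : Type) [AddCommGroup A]
    (co : A → Fin M → AlgebraicClosure k) (hJ : Pts J co)
    (Φ : Fin M → Fin M → MvPolynomial (Fin M ⊕ Fin M) (AlgebraicClosure k))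
    (hΦ : ∀ i j, (Φ i j).IsWeightedHomogeneous
      (Sum.elim (fun _ => ((1, 0) : ℕ × ℕ)) fun _ => (0, 1)) (2, 2))
    (law : ∀ p q, ∃ c : AlgebraicClosure k, c ≠ 0 ∧ ∀ i j,
      eval (Sum.elim (co p) (co q)) (Φ i j) = c * (co (p + q) i * co (p - q) j))
    (φ : Option (Fin M) → MvPolynomial (Fin N') (AlgebraicClosure k))
    (ψ : Fin N' → MvPolynomial (Option (Fin M)) (AlgebraicClosure k))
    (h₁ : Inv I' (J.map (rename some)) φ ψ) (h₂ : Inv (J.map (rename some)) I' ψ φ)
    (a b e e' : ℕ) (F : Fin a → MvPolynomial (Fin N) k) (hF : ∀ l, (F l).IsHomogeneous e)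
    (G : Fin b → MvPolynomial (Fin N) k) (hG : ∀ l, (G l).IsHomogeneous e')
    (K : Type) [Field K] [Algebra k K] (ξ : Fin N → K) (m : ℕ) (η : Fin m → K)
    (hr : Lr.LogRes I g F ξ η) (hm : ∀ l, ∀ c : ℚ, 0 < c → c < 1 → Lr.InMult g F ξ η c (G l))
    (ε : ℝ) (hε : 0 < ε) :
    ∃ (Θ : MvPolynomial (Fin N) k) (t : ℕ) (L : IntermediateField k (AlgebraicClosure k))
      (_ : NumberField L), Θ.IsHomogeneous t ∧ Θ ∉ I ∧
      ∀ (S : Finset (FinitePlace k)) (T : Finset (FinitePlace L)), ∃ c C : ℝ,
        ∀ (x : Fin N → k) (y : Fin N' → AlgebraicClosure k) (s : AlgebraicClosure k), x ≠ 0 →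
        (∀ P ∈ I, eval x P = 0) → eval x Θ ≠ 0 → (fun l => eval x (F l)) ≠ 0 →
        (fun l => eval x (G l)) ≠ 0 → y ≠ 0 → (∀ P ∈ I', eval y P = 0) →
        (fun i => algebraMap k (AlgebraicClosure k) (x i)) = s • f y →
        ∃ v : Fin M → L, v ≠ 0 ∧
        (∀ j, (v j : AlgebraicClosure k) = eval y (φ (some j)) / eval y (φ none)) ∧
        Module.finrank k (tsp I x) = g + 1 ∧
        ∀ β : Fin (g + 1) → Fin N → k, LinearIndependent k β → (∀ l, β l ∈ tsp I x) →
        hK x β + (∑ w : InfinitePlace k, w.mult * (lam w.1 F e x - lam w.1 G e' x) +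
          ∑ w ∈ S, (lam w.1 F e x - lam w.1 G e' x)) ≤ ε * logHeight x +
            c * ∑ᶠ w ∈ (T : Set (FinitePlace L))ᶜ, |Real.log (⨆ j, w.1 (v j))| + C := by
  have h := MP_651af7_nt.Cq.main hI hs hg hI' hf hJ ⟨hΦ, law⟩ h₁ h₂ hF hG (Sa.vi_of_res hr hm) hε
  simp only [MP_651af7_nt.Cn.cnt, MP_651af7_nt.Cn.osum_plc] at h
  exact h

end Pool.Agent.Lib.MP_8865d3_nt.Old.ConeIdeals
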