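import Pool.Agent.Lib.MP_8865d3_nt.Em.Main

/-! The inequality with the multiplier ideal correction on projective bundles over an elliptic
curve.  The fibre of the bundle over `(x, y)` is the column space of `B (x, y)`; a point of the
fibre is `X = B (x, y) t`. -/

namespace Pool.Agent.Results.MP_8865d3_nt.EllipticIdeals

open Height MvPolynomial NumberField MeasureTheory

/-- The maximal minors (Pluecker coordinates of the column space) of a matrix. -/
def minors {R : Type} [CommRing R] {n r : ℕ} (B : Matrix (Fin n) (Fin r) R) :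
    (Fin r → Fin n) → R := fun s => (B.submatrix s id).det

/-- The local height at `v` of the divisor of a form of bidegree `(d, β)` at the point `(P, X)`,
where the form has the value `g`. -/
noncomputable def lam {k : Type} [Field k] {n : ℕ} (v : AbsoluteValue k ℝ) (d β : ℕ)
    (P : Fin 3 → k) (X : Fin n → k) (g : k) : ℝ :=
  Real.log ((⨆ i, v (P i)) ^ d * (⨆ i, v (X i)) ^ β / v g)

/-- `|f|² / (∑ |G m|²) ^ c` is locally integrable for every `0 < c < 1`, in the charts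
`(x, t) ↦ (x, y x, t)`, `t ≠ 0`, given by the continuous branches `y` of the curve along which `B`
has full rank. -/
def InMultMinus {k : Type} [Field k] {n r a : ℕ} (W : WeierstrassCurve ℚ) (σ : k →+* ℂ)
    (B : Matrix (Fin n) (Fin r) (MvPolynomial (Fin 2) k))
    (G : Fin a → MvPolynomial (Fin r) (MvPolynomial (Fin 2) k))
    (f : MvPolynomial (Fin r) (MvPolynomial (Fin 2) k)) : Prop :=
  ∀ (U : Set ℂ) (y : ℂ → ℂ), IsOpen U → ContinuousOn y U →
    (∀ x ∈ U, (W.map (algebraMap ℚ ℂ)).toAffine.Equation x (y x) ∧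
      minors (B.map (eval₂Hom σ ![x, y x])) ≠ 0) → ∀ c : ℝ, 0 < c → c < 1 →
    LocallyIntegrableOn (fun z : ℂ × (Fin r → ℂ) =>
      ‖eval₂ (eval₂Hom σ ![z.1, y z.1]) z.2 f‖ ^ 2 /
        (∑ m, ‖eval₂ (eval₂Hom σ ![z.1, y z.1]) z.2 (G m)‖ ^ 2) ^ c)
      {z | z.1 ∈ U ∧ z.2 ≠ 0} volume

theorem result (W : WeierstrassCurve ℚ) [W.IsElliptic] (k : Type) [Field k] [NumberField k]
    (σ : k →+* ℂ) (n r q a b : ℕ) (B : Matrix (Fin n) (Fin (r + 1)) (MvPolynomial (Fin 2) k))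
    (L : Fin q → Fin (r + 1) → MvPolynomial (Fin 2) k) (h : Fin (a + 1) → MvPolynomial (Fin 2) k)
    (e : Fin (a + 1) → Fin q → ℕ)
    (G : Fin (a + 1) → MvPolynomial (Fin (r + 1)) (MvPolynomial (Fin 2) k))
    (hG : ∀ m, G m = C (h m) * ∏ j, (∑ i, C (L j i) * X i) ^ e m j)
    (f : Fin (b + 1) → MvPolynomial (Fin (r + 1)) (MvPolynomial (Fin 2) k)) (β : Fin (b + 1) → ℕ)
    (hf : ∀ l, (f l).IsHomogeneous (β l) ∧ InMultMinus W σ B G (f l))
    (dG : Fin (a + 1) → ℕ) (df : Fin (b + 1) → ℕ) (ε : ℝ) (hε : 0 < ε) :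
    ∃ (d : ℕ) (F : MvPolynomial (Fin (r + 1)) (Polynomial k)), F ≠ 0 ∧ F.IsHomogeneous d ∧
      ∀ S : Finset (FinitePlace k), ∃ C : ℝ,
      ∀ (x y : k) (t : Fin (r + 1) → k) (X : Fin n → k) (p : (Fin (r + 1) → Fin n) → k)
        (m : AbsoluteValue k ℝ → ℝ), (W.map (algebraMap ℚ k)).toAffine.Equation x y →
        X = (B.map (eval ![x, y])).mulVec t → p = minors (B.map (eval ![x, y])) → p ≠ 0 →
        eval₂ (Polynomial.evalRingHom x) t F ≠ 0 →
        (∀ i, eval₂ (eval ![x, y]) t (G i) ≠ 0) → (∀ l, eval₂ (eval ![x, y]) t (f l) ≠ 0) →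
        m = (fun v =>
          (⨅ i, lam v (dG i) (∑ j, e i j) ![x, y, 1] X (eval₂ (eval ![x, y]) t (G i))) -
            ⨅ l, lam v (df l) (β l) ![x, y, 1] X (eval₂ (eval ![x, y]) t (f l))) →
        logHeight p - (r + 1) * logHeight X +
          (∑ w : InfinitePlace k, w.mult * m w.1 + ∑ w ∈ S, m w.1) ≤
          ε * (logHeight₁ x + logHeight X) + C := by
  obtain rfl : G = fun m => Pool.Agent.Lib.MP_8865d3_nt.Em.prd L (h m) (e m) := funext hG
  obtain ⟨d, F, h0, hd, hF⟩ := Pool.Agent.Lib.MP_8865d3_nt.Em.multU W σ B L h e f β dG df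
    (fun l => (hf l).1) (fun l => (hf l).2) hε
  refine ⟨d, F, h0, hd, fun S => ?_⟩
  obtain ⟨C, hC⟩ := hF S
  refine ⟨C, ?_⟩
  rintro x y t _ _ _ h1 rfl rfl h5 h2 h3 h4 rfl
  have h := hC x y t h1 h2 h5 h3 h4
  rw [Fintype.sum_sum_type] at h
  rw [← Finset.sum_coe_sort S]
  simp only [Pool.Agent.Lib.MP_651af7_nt.Rt.mu, Pool.Agent.Lib.MP_651af7_nt.Rt.av, Sum.elim_inl,
    Sum.elim_inr, Nat.cast_one, one_mul] at h
  have key : ∀ A H Y R : ℝ, A + H ≤ Y + R + C → H - Y + A ≤ R + C := fun A H Y R h => by linarith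
  exact key _ _ _ _ h

end Pool.Agent.Results.MP_8865d3_nt.EllipticIdeals
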