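import Pool.Agent.Lib.MP_8865d3_nt.GmMain
import Pool.Agent.Lib.MP_8865d3_nt.FtLast

/-! The inequality with the multiplier ideal correction for arbitrary ideals on blow-ups of the
product of an elliptic curve and a line, up to the counting function of `E × {0, ∞}`.

`X` is the closure in `ℙ² × ℙ¹ × ℙ^ι` of the graph of the rational map on `E × ℙ¹` given by forms
`G j`.  A closed subscheme of `X` is given by a finite family of trihomogeneous forms. -/

namespace Pool.Agent.Results.MP_8865d3_nt.EllipticTorus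

open Height MvPolynomial NumberField MeasureTheory

/-- Homogeneous coordinates of a point of a Weierstrass cubic in the projective plane. -/
def pr {L : Type} [Field L] {W : WeierstrassCurve L} : W.toAffine.Point → Fin 3 → L
  | .zero => ![0, 1, 0]
  | .some x y _ => ![x, y, 1]

/-- Homogeneous coordinates of a point of the projective line. -/
def pr1 {L : Type} [Field L] : Option L → Fin 2 → L
  | .none => ![1, 0]
  | .some u => ![u, 1]

/-- The tridegree of the variables of `ℙ² × ℙ¹ × ℙ^ι`. -/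
def tw (ι : Type) : (Fin 3 ⊕ Fin 2) ⊕ ι → ℕ × ℕ × ℕ :=
  Sum.elim (Sum.elim (fun _ => (1, 0, 0)) fun _ => (0, 1, 0)) fun _ => (0, 0, 1)

/-- The coordinates `(P, Q, G (P, Q))` of the point of the graph over `(P, Q)`. -/
noncomputable def gr {k L ι : Type} [Field k] [Field L] (σ : k →+* L)
    (G : ι → MvPolynomial (Fin 3 ⊕ Fin 2) k) (P : Fin 3 → L) (Q : Fin 2 → L) :
    (Fin 3 ⊕ Fin 2) ⊕ ι → L :=
  Sum.elim (Sum.elim P Q) fun j => eval₂ σ (Sum.elim P Q) (G j)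

/-- The Weil height attached to the subscheme defined by forms `F l` of tridegree `e`. -/
noncomputable def glHt {k ι α : Type} [Field k] [NumberField k] (e : ℕ × ℕ × ℕ)
    (F : α → MvPolynomial ((Fin 3 ⊕ Fin 2) ⊕ ι) k) (p : (Fin 3 ⊕ Fin 2) ⊕ ι → k) : ℝ :=
  e.1 * logHeight (fun i => p (.inl (.inl i))) + e.2.1 * logHeight (fun i => p (.inl (.inr i))) +
    e.2.2 * logHeight (fun j => p (.inr j)) - logHeight fun l => eval p (F l)

/-- The local height at `v` attached to the subscheme defined by forms `F l` of tridegree `e`. -/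
noncomputable def locHt {k ι α : Type} [Field k] (v : AbsoluteValue k ℝ) (e : ℕ × ℕ × ℕ)
    (F : α → MvPolynomial ((Fin 3 ⊕ Fin 2) ⊕ ι) k) (p : (Fin 3 ⊕ Fin 2) ⊕ ι → k) : ℝ :=
  e.1 * Real.log (⨆ i, v (p (.inl (.inl i)))) + e.2.1 * Real.log (⨆ i, v (p (.inl (.inr i)))) +
    e.2.2 * Real.log (⨆ j, v (p (.inr j))) - Real.log (⨆ l, v (eval p (F l)))

/-- Zeros and poles of `u` at the finite places outside `T`. -/
noncomputable def cnt {k : Type} [Field k] [NumberField k] (T : Finset (FinitePlace k)) (u : k) :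
    ℝ := ∑ᶠ v ∈ (T : Set (FinitePlace k))ᶜ, |Real.log (v u)|

/-- `|f|² / (∑ |I l|²) ^ c` is locally integrable for every `0 < c < 1`, in the charts
`(x, u) ↦ ((x, y x, 1), (u, 1))` and `(x, u) ↦ ((x, y x, 1), (1, u))` given by the continuous branches
`y` of the curve, away from the common zeros of the `G j`. -/
def InMultMinus {k ι β : Type} [Field k] [Fintype β] (W : WeierstrassCurve ℚ) (σ : k →+* ℂ)
    (G : ι → MvPolynomial (Fin 3 ⊕ Fin 2) k) (I : β → MvPolynomial ((Fin 3 ⊕ Fin 2) ⊕ ι) k)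
    (f : MvPolynomial ((Fin 3 ⊕ Fin 2) ⊕ ι) k) : Prop :=
  ∀ (t : Fin 2) (U : Set ℂ) (y : ℂ → ℂ), IsOpen U → ContinuousOn y U →
    (∀ x ∈ U, (W.map (algebraMap ℚ ℂ)).toAffine.Equation x (y x)) → ∀ c : ℝ, 0 < c → c < 1 →
    LocallyIntegrableOn (fun q : ℂ × ℂ =>
      ‖eval₂ σ (gr σ G ![q.1, y q.1, 1] (Function.update 1 t q.2)) f‖ ^ 2 /
        (∑ l, ‖eval₂ σ (gr σ G ![q.1, y q.1, 1] (Function.update 1 t q.2)) (I l)‖ ^ 2) ^ c)
      {q | q.1 ∈ U ∧ (fun j => gr σ G ![q.1, y q.1, 1] (Function.update 1 t q.2) (.inr j)) ≠ 0}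
      volume

theorem eval₂_gr {k L ι : Type} [Field k] [Field L] (σ : k →+* L)
    (G : ι → MvPolynomial (Fin 3 ⊕ Fin 2) k) (P : Fin 3 → L) (Q : Fin 2 → L)
    (f : MvPolynomial ((Fin 3 ⊕ Fin 2) ⊕ ι) k) :
    eval₂ σ (gr σ G P Q) f = eval₂ σ (Sum.elim P Q) (aeval (Sum.elim X G) f) := by
  induction f using MvPolynomial.induction_on with
  | C c => simp
  | add p q hp hq => simp only [map_add, eval₂_add, hp, hq]
  | mul_X p i hp =>
    simp only [map_mul, eval₂_mul, hp, aeval_X, eval₂_X]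
    rcases i with i | j
    · simp [gr]
    · rfl

open Pool.Agent.Lib.MP_8865d3_nt in
theorem result (W : WeierstrassCurve ℚ) [W.IsElliptic] (k : Type) [Field k] [NumberField k]
    (σ : k →+* ℂ) (ι α β γ : Type) [Fintype ι] [Fintype α] [Fintype β] [Fintype γ]
    (G : ι → MvPolynomial (Fin 3 ⊕ Fin 2) k) (d : ℕ × ℕ)
    (hG : ∀ j, (G j).IsWeightedHomogeneous (Sum.elim (fun _ => (1, 0)) fun _ => (0, 1)) d)
    (F : α → MvPolynomial ((Fin 3 ⊕ Fin 2) ⊕ ι) k) (I : β → MvPolynomial ((Fin 3 ⊕ Fin 2) ⊕ ι) k)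
    (J : γ → MvPolynomial ((Fin 3 ⊕ Fin 2) ⊕ ι) k) (eF eI eJ : ℕ × ℕ × ℕ)
    (hF : ∀ l, (F l).IsWeightedHomogeneous (tw ι) eF)
    (hI : ∀ l, (I l).IsWeightedHomogeneous (tw ι) eI)
    (hJ : ∀ l, (J l).IsWeightedHomogeneous (tw ι) eJ)
    (hfin : {R : (W.map (algebraMap ℚ (AlgebraicClosure k))).toAffine.Point ×
        Option (AlgebraicClosure k) |
      (∀ j, gr (algebraMap k _) G (pr R.1) (pr1 R.2) (.inr j) = 0) ∨
      ∀ l, eval₂ (algebraMap k _) (gr (algebraMap k _) G (pr R.1) (pr1 R.2)) (F l) = 0}.Finite)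
    (hIJ : ∀ l, InMultMinus W σ G I (J l)) :
    ∃ Z : Set k, Z.Finite ∧ ∀ (S : Finset (FinitePlace k)) (ε : ℝ), 0 < ε → ∃ c : ℝ,
      ∀ T : Finset (FinitePlace k), ∃ C : ℝ, ∀ (x y u : k) (p : (Fin 3 ⊕ Fin 2) ⊕ ι → k),
        (W.map (algebraMap ℚ k)).toAffine.Equation x y →
        p = gr (RingHom.id k) G ![x, y, 1] ![u, 1] → x ∉ Z → u ∉ Z →
        (fun l => eval p (I l)) ≠ 0 → (fun l => eval p (J l)) ≠ 0 →
        u ≠ 0 ∧ (fun j => p (.inr j)) ≠ 0 ∧ (fun l => eval p (F l)) ≠ 0 ∧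
        -2 * logHeight ![u, 1] + glHt eF F p +
          (∑ w : InfinitePlace k, w.mult * (locHt w.1 eI I p - locHt w.1 eJ J p) +
            ∑ w ∈ S, (locHt w.1 eI I p - locHt w.1 eJ J p)) ≤
          ε * (logHeight ![x, y, 1] + logHeight ![u, 1]) + c * cnt T u + C := by
  obtain ⟨d, d'⟩ := d
  have e₁ : ∀ {L : Type} [Field L] {V : WeierstrassCurve L} (P : V.toAffine.Point),
      Pool.Agent.MP_651af7_nt.Final.pr P = pr P := fun P => by cases P <;> rfl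
  have e₂ : ∀ {L : Type} [Field L] (P : Option L), Gm.pr1 P = pr1 P := fun P => by
    cases P <;> rfl
  let f : ℕ × ℕ × ℕ →+ ℕ × ℕ :=
    { toFun := fun e => (e.1 + e.2.2 * d, e.2.1 + e.2.2 * d')
      map_zero' := by simp
      map_add' := fun a b => by simp only [Prod.fst_add, Prod.snd_add, Prod.mk_add_mk]; ring_nf }
  have hom : ∀ {g : MvPolynomial ((Fin 3 ⊕ Fin 2) ⊕ ι) k} {e : ℕ × ℕ × ℕ},
      g.IsWeightedHomogeneous (tw ι) e → (aeval (Sum.elim X G) g).IsWeightedHomogeneous Gm.bw2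
        (e.1 + e.2.2 * d, e.2.1 + e.2.2 * d') := fun h => Fa.homog_aeval f (by
    rintro ((i | i) | j)
    · simpa [f, tw, Gm.bw2] using isWeightedHomogeneous_X k Gm.bw2 (Sum.inl i)
    · simpa [f, tw, Gm.bw2] using isWeightedHomogeneous_X k Gm.bw2 (Sum.inr i)
    · simpa [f, tw, Gm.bw2] using hG j) h
  have hG₁ : {R : (W.map (algebraMap ℚ (AlgebraicClosure k))).toAffine.Point ×
      Option (AlgebraicClosure k) | ∀ j, aeval (Sum.elim (Pool.Agent.MP_651af7_nt.Final.pr R.1)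
        (Gm.pr1 R.2)) (G j) = 0}.Finite :=
    hfin.subset fun R hR => Or.inl fun j => by
      rw [← e₁, ← e₂]
      exact hR j
  obtain ⟨Z₁, hZ₁, h₁⟩ := Gm.finalG Gm.coreG W k G d d' hG hG₁
  obtain ⟨Z₂, hZ₂, h₂⟩ := Gm.finalG Gm.coreG W k _ _ _ (fun l => hom (hF l))
    (hfin.subset fun R hR => Or.inr fun l => by
      rw [eval₂_gr, ← e₁, ← e₂]
      exact hR l)
  obtain ⟨Z₃, hZ₃, h₃⟩ := Ft.sum_le W σ hG (fun l => hom (hI l)) (fun l => hom (hJ l))
    (fun t l U y k1 k2 k3 c k4 k5 => by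
      have := hIJ l t U y k1 k2 k3 c k4 k5
      simp only [eval₂_gr] at this
      simp only [Ft.toP_eval₂]
      exact this)
    (Ft.exists_not_van W G _ hG₁)
  obtain ⟨C₀, h₀⟩ := Gm.height_forms_le2 hG
  refine ⟨insert 0 (Z₁ ∪ Z₂ ∪ Z₃), ((hZ₁.union hZ₂).union hZ₃).insert 0, fun S ε hε => ?_⟩
  obtain ⟨c₁, -, h₁⟩ := h₁ 1 one_pos
  obtain ⟨c₂, -, h₂⟩ := h₂ _ (half_pos hε)
  obtain ⟨c₃, -, h₃⟩ := h₃ S _ (half_pos hε)
  refine ⟨c₂ + c₃, fun T => ?_⟩
  obtain ⟨C₁, h₁⟩ := h₁ T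
  obtain ⟨C₂, h₂⟩ := h₂ T
  obtain ⟨C₃, h₃⟩ := h₃ T
  refine ⟨C₂ + C₃ + eF.2.2 * C₀, ?_⟩
  rintro x y u _ he rfl hx hu k1 k2
  simp only [Set.mem_insert_iff, Set.mem_union, not_or] at hx hu
  have ev : ∀ g, eval (gr (RingHom.id k) G ![x, y, 1] ![u, 1]) g =
      eval (Sum.elim ![x, y, 1] ![u, 1]) (aeval (Sum.elim X G) g) := fun g =>
    eval₂_gr (RingHom.id k) G _ _ g
  simp only [ev] at k1 k2
  have k3 := (h₁ x y u he hu.1 hx.2.1.1 hu.2.1.1).1
  obtain ⟨k4, k5⟩ := h₂ x y u he hu.1 hx.2.1.2 hu.2.1.2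
  have k6 := h₃ x y u he hx.2.2 hu.1 k3 k1 k2
  have k7 := mul_le_mul_of_nonneg_left (h₀ _ _ (fun h => by simpa using congrFun h 2)
    (fun h => by simpa using congrFun h 1) k3) (Nat.cast_nonneg (α := ℝ) eF.2.2)
  have k8 : logHeight₁ x ≤ logHeight ![x, y, 1] := by
    rw [logHeight₁_eq_logHeight]
    refine le_of_eq_of_le (congrArg _ (funext fun i => ?_)) (logHeight_comp_le ![0, 2] ![x, y, 1])
    fin_cases i <;> rfl
  have k9 := mul_le_mul_of_nonneg_left k8 hε.le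
  refine ⟨hu.1, k3, by simpa only [ev] using k4, ?_⟩
  have el : ∀ {δ : Type} (v : AbsoluteValue k ℝ) (e : ℕ × ℕ × ℕ)
      (A : δ → MvPolynomial ((Fin 3 ⊕ Fin 2) ⊕ ι) k),
      locHt v e A (gr (RingHom.id k) G ![x, y, 1] ![u, 1]) =
        Ft.lh v e G (fun l => aeval (Sum.elim X G) (A l)) ![x, y, 1] ![u, 1] := fun v e A => by
    simp only [locHt, ev]
    rfl
  simp only [glHt, el, ev]
  rw [logHeight₁_eq_logHeight u] at k5 k6
  push_cast at k5
  change -2 * logHeight ![u, 1] + (eF.1 * logHeight ![x, y, 1] + eF.2.1 * logHeight ![u, 1] +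
    eF.2.2 * logHeight (fun j => eval (Sum.elim ![x, y, 1] ![u, 1]) (G j)) - _) + _ ≤
    _ + _ * Gm.cnt T u + _
  linarith

end Pool.Agent.Results.MP_8865d3_nt.EllipticTorus
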