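import Pool.Agent.Lib.MP_8865d3_nt.Mk.Comb
import Pool.Agent.Lib.MP_8865d3_nt.Mk.Mark

/-! Vojta's inequality on blow-ups of cubic surfaces with a rational triangle at infinity, up to
the denominator of the point and the height of one curve.

`J` cuts out the centre of the blow-up, the members of `A w` cut out the curves whose local
heights are added up at the place `w`, and `T` cuts out the exceptional curve. -/

namespace Pool.Agent.Lib.MP_8865d3_nt.Old.MarkoffCubics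

open MvPolynomial NumberField

open Pool.Agent.Lib.MP_8865d3_nt in
theorem old_result (a b c d l m n e f g k : ℚ) (h0 : a * b * c * d ≠ 0) (F : MvPolynomial (Fin 3) ℚ)
    (hF : F = C a * X 0 ^ 2 + C b * X 1 ^ 2 + C c * X 2 ^ 2 + C d * (X 0 * X 1 * X 2) +
      C l * (X 1 * X 2) + C m * (X 0 * X 2) + C n * (X 0 * X 1) + C e * X 0 + C f * X 1 +
      C g * X 2 + C k)
    (K : Type) [Field K] [NumberField K] (B J : Finset (MvPolynomial (Fin 3) K))
    (hJ : Module.Finite K (MvPolynomial (Fin 3) K ⧸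
      Ideal.span (insert (map (algebraMap ℚ K) F) (J : Set (MvPolynomial (Fin 3) K)))))
    (ε : ℝ) (hε : 0 < ε) :
    ∃ T : Finset (MvPolynomial (Fin 3) ℚ), (∀ t ∈ T, ¬ F ∣ t) ∧
      ∀ (S : Finset (FinitePlace K)) (A : FinitePlace K → Finset (MvPolynomial (Fin 3) K)),
      (∀ w ∈ S, A w ⊆ B ∧ ∀ u ∈ A w, ∀ v ∈ A w, u ≠ v → Module.Finite K
        (MvPolynomial (Fin 3) K ⧸ Ideal.span {map (algebraMap ℚ K) F, u, v})) →
      ∃ c₁ c₂ : ℝ, ∀ (p : Fin 3 → ℤ) (q : ℕ) (H : ℝ), 0 < q →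
        eval (fun i => (p i / q : ℚ)) F = 0 → 1 ≤ H →
        (∀ w ∈ S, ∀ u ∈ A w, eval (fun i => (p i / q : K)) u ≠ 0 ∧
          house (eval (fun i => (p i / q : K)) u) ≤ H) →
        (∀ t ∈ T, eval (fun i => (p i / q : ℚ)) t ≠ 0) →
        (∃ j ∈ J, eval (fun i => (p i / q : K)) j ≠ 0) ∧ ∀ S' : Finset (FinitePlace K),
          ∑ w ∈ S', Real.log (⨆ j : J, w (eval (fun i => (p i / q : K)) j))⁻¹ +
            ∑ w ∈ S, ∑ u ∈ A w, Real.log (w (eval (fun i => (p i / q : K)) u))⁻¹ ≤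
          Module.finrank ℚ K * Real.log H + ε * Real.log ‖p‖ + c₁ * Real.log q + c₂ := by
  simp only [ne_eq, mul_eq_zero, not_or] at h0
  let D : Mk.Co := ⟨a, b, c, d, l, m, n, e, f, g, k, h0.1.1.1, h0.1.1.2, h0.1.2, h0.2⟩
  have e1 : F = D.F (X 0) (X 1) (X 2) := by
    simp only [hF, D, Mk.Co.F, smul_eq_C_mul, mul_one]
  have e2 : map (algebraMap ℚ K) F = D.F (X 0) (X 1) (X 2) := by
    simp only [hF, D, Mk.Co.F, Algebra.smul_def, MvPolynomial.algebraMap_apply, map_add,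
      map_mul, map_pow, map_C, map_X, mul_one]
  have e3 : ∀ x : Fin 3 → ℚ, eval x F = D.F (x 0) (x 1) (x 2) := fun x => by
    simp only [hF, D, Mk.Co.F, smul_eq_mul, map_add, map_mul, map_pow, eval_C, eval_X, mul_one]
  simp only [e3]
  rw [e2] at hJ ⊢
  rw [e1]
  obtain ⟨T, h1, h2⟩ := Mk.comb D K B J hJ hε
  refine ⟨T, h1, fun S A hA => ?_⟩
  obtain ⟨c₁, c₂, h3⟩ := h2 S A hA
  exact ⟨c₁, c₂, fun p q H hq hP hH hu hT => h3 p q H hq hP hH hu (.inl hT)⟩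

open Pool.Agent.Lib.MP_8865d3_nt in
/-- With one polynomial at each place there is no exceptional set. -/
theorem one_per_place (a b c d l m n e f g k : ℚ) (ha : a ≠ 0) (hb : b ≠ 0) (hc : c ≠ 0)
    (hd : d ≠ 0) (K : Type) [Field K] [NumberField K] (S : Finset (FinitePlace K))
    (u : FinitePlace K → MvPolynomial (Fin 3) K) (ε : ℝ) (hε : 0 < ε) :
    ∃ c₁ c₂ : ℝ, ∀ (p : Fin 3 → ℤ) (q : ℕ) (H : ℝ) (x y z : ℚ), 0 < q → x = p 0 / q →
      y = p 1 / q → z = p 2 / q → a * x ^ 2 + b * y ^ 2 + c * z ^ 2 + d * (x * y * z) +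
        l * (y * z) + m * (x * z) + n * (x * y) + e * x + f * y + g * z + k = 0 → 1 ≤ H →
      (∀ w ∈ S, eval (fun i => (p i / q : K)) (u w) ≠ 0 ∧
        house (eval (fun i => (p i / q : K)) (u w)) ≤ H) →
      ∑ w ∈ S, Real.log (w (eval (fun i => (p i / q : K)) (u w)))⁻¹ ≤
        Module.finrank ℚ K * Real.log H + ε * Real.log ‖p‖ + c₁ * Real.log q + c₂ := by
  obtain ⟨c₁, c₂, h⟩ := Mk.main ⟨a, b, c, d, l, m, n, e, f, g, k, ha, hb, hc, hd⟩ K S u hε
  refine ⟨c₁, c₂, ?_⟩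
  rintro p q H x y z hq rfl rfl rfl hP
  exact h p q H hq (by simpa only [Mk.Co.F, smul_eq_mul, mul_one] using hP)

/-- The part of a Markoff number composed of the primes of `S` is at most its square root,
up to `ε`. -/
theorem markoff (S : Finset ℕ) (hS : ∀ p ∈ S, p.Prime) (ε : ℝ) (hε : 0 < ε) :
    ∃ C : ℝ, ∀ x y z : ℕ, 0 < z → x ^ 2 + y ^ 2 + z ^ 2 = 3 * x * y * z →
      ∏ p ∈ S, (p : ℝ) ^ z.factorization p ≤ C * (z : ℝ) ^ (1 / 2 + ε) :=
  Lib.MP_8865d3_nt.Mk.markoff S hS hε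

/-- The greatest prime factor of a Markoff number tends to infinity. -/
theorem markoff_finite (B : ℕ) :
    {z : ℕ | 0 < z ∧ (∃ x y : ℕ, x ^ 2 + y ^ 2 + z ^ 2 = 3 * x * y * z) ∧
      ∀ p, p.Prime → p ∣ z → p ≤ B}.Finite :=
  Lib.MP_8865d3_nt.Mk.markoff_fin B

end Pool.Agent.Lib.MP_8865d3_nt.Old.MarkoffCubics
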