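import Pool.Agent.Lib.MP_8865d3_nt.Glob

/-! Vojta's inequality with the multiplier ideal correction on projective bundles over projective
space, up to the counting function of the toric boundary of the base.

`X` is the toric variety with Cox ring `ℤ[u 0, …, u k, x 0, …, x n]`, where `u t` has degree
`(1, 0)` and `x i` has degree `(a i, 1)`; it is the quotient of `{u ≠ 0, x ≠ 0}` by a free torus
action, and a rational point is given by primitive integer vectors `u` and `x`. -/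

namespace Pool.Agent.Lib.MP_8865d3_nt.Old.MovingMult

open Finset MvPolynomial MeasureTheory

variable {k n : ℕ}

/-- The Weil height attached to the divisor class `(α, β)` at the point `(u, x)`. -/
noncomputable def ht (a : Fin (n + 1) → ℕ) (α β : ℝ) (u : Fin (k + 1) → ℤ)
    (x : Fin (n + 1) → ℤ) : ℝ :=
  α * Real.log ‖u‖ + β * Real.log ‖fun i => (x i : ℝ) / ‖u‖ ^ a i‖

/-- The local height of the divisor of the form `P` of degree `e` at the point `(u, x)`, at the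
real place (`none`) or at the prime `p` (`some p`). -/
noncomputable def locHt (a : Fin (n + 1) → ℕ) (e : ℕ × ℕ)
    (P : MvPolynomial (Fin (k + 1) ⊕ Fin (n + 1)) ℤ) (u : Fin (k + 1) → ℤ) (x : Fin (n + 1) → ℤ) :
    Option ℕ → ℝ
  | none => ht a e.1 e.2 u x - Real.log |((eval (Sum.elim u x) P : ℤ) : ℝ)|
  | some p => -Real.log ((padicNorm p ((eval (Sum.elim u x) P : ℤ) : ℚ) : ℚ) : ℝ)

/-- The logarithm of the prime-to-`S` part of `z`. -/
noncomputable def cnt (S : Finset ℕ) (z : ℤ) : ℝ :=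
  Real.log |(z : ℝ)| + ∑ p ∈ S, Real.log ((padicNorm p (z : ℚ) : ℚ) : ℝ)

/-- `f` is a section of the multiplier ideal `I⁻` of the ideal `I` generated by the `G m`:
`|f|² / (∑ |G m|²) ^ c` is locally integrable on `{u ≠ 0, x ≠ 0}` for every `0 < c < 1`. -/
def InMultMinus {r : ℕ} (G : Fin r → MvPolynomial (Fin (k + 1) ⊕ Fin (n + 1)) ℤ)
    (f : MvPolynomial (Fin (k + 1) ⊕ Fin (n + 1)) ℤ) : Prop :=
  ∀ c : ℝ, 0 < c → c < 1 → LocallyIntegrableOn
    (fun z : (Fin (k + 1) → ℂ) × (Fin (n + 1) → ℂ) => ‖aeval (Sum.elim z.1 z.2) f‖ ^ 2 /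
      (∑ m, ‖aeval (Sum.elim z.1 z.2) (G m)‖ ^ 2) ^ c) {z | z.1 ≠ 0 ∧ z.2 ≠ 0} volume

open Pool.Agent.Lib.MP_651af7_nt.Moving Pool.Agent.Lib.MP_8865d3_nt
  Pool.Agent.Lib.Common.Subspace in
theorem result (k n q r s : ℕ) (a : Fin (n + 1) → ℕ) (d : Fin q → ℕ)
    (g : Fin q → Fin (n + 1) → MvPolynomial (Fin (k + 1)) ℤ) (hg0 : ∀ j, g j ≠ 0)
    (hg : ∀ j i, ∀ μ ∈ (g j i).support, μ.degree + a i = d j)
    (h : Fin (r + 1) → MvPolynomial (Fin (k + 1)) ℤ) (δ : Fin (r + 1) → ℕ)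
    (hh : ∀ m, h m ≠ 0 ∧ (h m).IsHomogeneous (δ m)) (e : Fin (r + 1) → Fin q → ℕ)
    (G : Fin (r + 1) → MvPolynomial (Fin (k + 1) ⊕ Fin (n + 1)) ℤ)
    (hG : ∀ m, G m = rename Sum.inl (h m) *
      ∏ j, (∑ i, rename Sum.inl (g j i) * X (Sum.inr i)) ^ e m j)
    (f : Fin (s + 1) → MvPolynomial (Fin (k + 1) ⊕ Fin (n + 1)) ℤ) (df : Fin (s + 1) → ℕ × ℕ)
    (hf : ∀ l, f l ≠ 0 ∧ InMultMinus G (f l) ∧
      (f l).IsWeightedHomogeneous (Sum.elim (fun _ => (1, 0)) fun i => (a i, 1)) (df l))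
    (ε : ℝ) (hε : 0 < ε) :
    ∃ (c : ℝ) (F : MvPolynomial (Fin (k + 1) ⊕ Fin (n + 1)) ℤ) (dF : ℕ × ℕ), F ≠ 0 ∧
      F.IsWeightedHomogeneous (Sum.elim (fun _ => (1, 0)) fun i => (a i, 1)) dF ∧
      ∀ S : Finset ℕ, (∀ p ∈ S, p.Prime) → ∃ C : ℝ,
        ∀ (u : Fin (k + 1) → ℤ) (x : Fin (n + 1) → ℤ), univ.gcd u = 1 → univ.gcd x = 1 →
          eval (Sum.elim u x) F ≠ 0 →
          (∀ t, u t ≠ 0) ∧ (∀ m, eval (Sum.elim u x) (G m) ≠ 0) ∧
          (∀ l, eval (Sum.elim u x) (f l) ≠ 0) ∧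
          ht a (-(k + 1 + ∑ i, (a i : ℝ))) (-(n + 1)) u x +
            ∑ v ∈ insertNone S,
              ((⨅ m, locHt a (δ m + ∑ j, e m j * d j, ∑ j, e m j) (G m) u x v) -
                ⨅ l, locHt a (df l) (f l) u x v) ≤
          ε * ht a (1 + ∑ i, (a i : ℝ)) 1 u x + c * ∑ t, cnt S (u t) + C := by
  obtain rfl : G = fun m => rename Sum.inl (h m) * ∏ j, lin (g j) ^ e m j := funext hG
  obtain ⟨c, F, dF, hF0, hFe, H⟩ := main_add a d g hg hg0 h δ (fun m μ hμ => by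
    have := (hh m).2 (mem_support_iff.1 hμ)
    rwa [add_zero, Finsupp.degree_eq_weight_one, ← Pi.one_def]) (fun m => (hh m).1) e f df
    (fun l => (hf l).1) (fun l => (hf l).2.2) (fun l => (hf l).2.1) hε
  refine ⟨c, F, dF, hF0, hFe, fun S hS => ?_⟩
  obtain ⟨C, hC⟩ := H S hS
  refine ⟨C, fun u x hu hx hz => ?_⟩
  obtain ⟨hu0, hx0, h1, h2, h3⟩ := hC u x hu hx hz
  refine ⟨hu0, h1, h2, ?_⟩
  have hu1 := one_le_norm hu0
  have hupos : 0 < ‖u‖ := by linarith
  have h4 : ∀ e P, lam S hS a u x none e (eval (Sum.elim u x) P) = locHt a e P u x none :=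
    fun e P => by rw [lam, place_none]; rfl
  have h5 : ∀ (p : S) e P, lam S hS a u x (some p) e (eval (Sum.elim u x) P) =
      locHt a e P u x (some p) := fun p e P => by simp [lam, place_some, locHt]
  have h6 : ∑ t, cnt S (u t) = Real.log (∏ t, ∏ o, place S hS o (u t)) := by
    rw [Real.log_prod fun t _ => (prod_pos fun o _ =>
      (place S hS o).pos (by exact_mod_cast hu0 t)).ne']
    refine sum_congr rfl fun t _ => ?_
    rw [Real.log_prod (fun o _ => ((place S hS o).pos (by exact_mod_cast hu0 t)).ne'),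
      Fintype.sum_option, place_none, cnt, ← sum_coe_sort S]
    rfl
  have h7 : Real.log ‖x‖ ≤ (∑ i, (a i : ℝ)) * Real.log ‖u‖ + Real.log (xi a u x) := by
    obtain ⟨i, hi⟩ := exists_norm_eq x
    have h7 := Real.log_le_log (by rw [abs_pos]; exact_mod_cast hx0 i) (le_xi a hupos x i)
    rw [Real.log_mul (by positivity) (xi_pos a hupos hx0).ne', Real.log_pow] at h7
    have h8 : (a i : ℝ) ≤ ∑ i, (a i : ℝ) :=
      single_le_sum (f := fun i => (a i : ℝ)) (fun _ _ => Nat.cast_nonneg _) (mem_univ i)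
    have h9 := mul_le_mul_of_nonneg_right h8 (Real.log_nonneg hu1)
    rw [← hi, Int.norm_eq_abs]
    linarith
  have h10 := mul_le_mul_of_nonneg_left h7 hε.le
  rw [Fintype.sum_option] at h3
  simp only [h4, h5, Fintype.card_fin] at h3
  rw [sum_insertNone, ← sum_coe_sort S, h6]
  simp only [ht, xi] at h3 h10 ⊢
  push_cast at h3 ⊢
  linarith

end Pool.Agent.Lib.MP_8865d3_nt.Old.MovingMult
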