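import Pool.Agent.Lib.MP_651af7_nt.Nf.Split
import Pool.Agent.Lib.MP_651af7_nt.Nf.Cf
import Pool.Agent.Lib.MP_651af7_nt.Sl.Ex

/-! Integral points on covers of the punctured cone over an abelian variety.

The point `ξ` is generic on the affine cone over the abelian variety defined by `J`, the field `F`
is the function field of the abelian variety, and `K` is the function field of a variety that is
generically finite over the cone. The fibre coordinate `ξ i` has two poles `O`, `O'` among the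
places of `K` over `F`. -/

namespace Pool.Agent.Lib.MP_8865d3_nt.Old.SplitCovers

open Height MvPolynomial NumberField IntermediateField Real Pool.Agent.Lib.MP_651af7_nt Ds

theorem result (k : Type) [Field k] [NumberField k] (N q : ℕ)
    (J : Ideal (MvPolynomial (Fin N) k)) (hJ : ∀ P ∈ J, ∀ d, homogeneousComponent d P ∈ J)
    (hA : Abelian (J.map (MvPolynomial.map (algebraMap k (AlgebraicClosure k)))))
    (K : Type) [Field K] [Algebra k K] (ξ : Fin N → K) (σ : Fin q → K)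
    (hξ : ∀ P, aeval ξ P = 0 ↔ P ∈ J)
    (hσ : ∀ l, IsAlgebraic (Algebra.adjoin k (Set.range ξ)) (σ l))
    (hK : adjoin k (Set.range (Sum.elim ξ σ)) = ⊤) (i : Fin N) (F : IntermediateField k K)
    (hF : F = adjoin k (Set.range fun j => ξ j / ξ i))
    (O O' : ValuationSubring K) (hO : O ≠ O') (hF' : ∀ z ∈ F, z ∈ O ∧ z ∈ O')
    (hi : ξ i ∉ O ∧ ξ i ∉ O') :
    ∃ (Θ : MvPolynomial (Fin N) k) (d : ℕ) (c : ℝ), Θ.IsHomogeneous d ∧ Θ ∉ J ∧
      ∀ S : Finset (FinitePlace k), ∃ C : ℝ, ∀ (v : Fin N → k) (s : Fin q → k),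
        (∀ P, aeval (Sum.elim ξ σ) P = 0 → eval (Sum.elim v s) P = 0) → eval v Θ ≠ 0 →
        logHeight (fun o : Option (Fin N) => o.elim 1 v) ≤
          c * ∑ᶠ w ∈ (S : Set (FinitePlace k))ᶜ,
            (|log (⨆ j, w (v j))| + log⁺ (⨆ l, w (s l))) + C :=
  Nf.split Nf.cf k N q J hJ hA K ξ σ hξ hσ hK i F hF O O' hO hF' hi

/-- An instance: on an elliptic curve over the rationals only finitely many points
`(a / d ^ 2, b / d ^ 3)` in lowest terms have `a ^ 2 + b + n` a square. -/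
theorem square (A B n : ℤ) (hΔ : 4 * A ^ 3 + 27 * B ^ 2 ≠ 0) (hn : n ≠ 0) :
    {p : ℤ × ℤ × ℤ | p.2.2 ≠ 0 ∧ IsCoprime p.1 p.2.2 ∧
      p.2.1 ^ 2 = p.1 ^ 3 + A * p.1 * p.2.2 ^ 4 + B * p.2.2 ^ 6 ∧
        IsSquare (p.1 ^ 2 + p.2.1 + n)}.Finite :=
  Sl.ex_square A B n hΔ hn

end Pool.Agent.Lib.MP_8865d3_nt.Old.SplitCovers
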