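import Pool.Agent.Lib.MP_8865d3_nt.St.Ex
import Pool.Agent.Lib.MP_651af7_nt.Nf.Split
import Pool.Agent.Lib.MP_651af7_nt.Sl.Ex

/-! Rational points on finite covers of torus bundles over abelian varieties approach the boundary
only in the directions above which the cover has a single branch.

The abelian variety is the zero set of `J`, with generic point `y`. The `u i` are the coordinates
on the fibres of the torus bundle; the blocks `φ i`, `ψ i` give the metric of the `i`-th line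
bundle. The field `K` is the function field of the cover. A direction `w` is split if the monomial
absolute value of weight `w` has two different extensions to `K`. -/

namespace Pool.Agent.Lib.MP_8865d3_nt.Old.SplitTorsors

open Height MvPolynomial NumberField IntermediateField Real Pool.Agent.Lib
open MP_651af7_nt MP_651af7_nt.Ds MP_8865d3_nt.Tr MP_8865d3_nt.St

theorem result (k : Type) [Field k] [NumberField k] (g n q N : ℕ)
    (J : Ideal (MvPolynomial (Fin g) k)) (hJ : ∀ P ∈ J, ∀ d, homogeneousComponent d P ∈ J)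
    (hA : Abelian (J.map (MvPolynomial.map (algebraMap k (AlgebraicClosure k)))))
    (K : Type) [Field K] [Algebra k K] (y : Fin g → K) (u : Fin n → K) (σ : Fin q → K)
    (h1 : ∃ i, y i = 1)
    (hy : ∀ (P : MvPolynomial (Fin g) k) (d : ℕ), P.IsHomogeneous d → (aeval y P = 0 ↔ P ∈ J))
    (hu : AlgebraicIndependent (adjoin k (Set.range y)) u)
    (hK : adjoin (adjoin k (Set.range y)) (Set.range (Sum.elim u σ)) = ⊤)
    (ha : Algebra.IsAlgebraic (adjoin (adjoin k (Set.range y)) (Set.range u)) K)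
    (φ ψ : Fin n → Fin (N + 1) → MvPolynomial (Fin g) k)
    (hφ : ∀ i, ∃ b, aeval y (φ i b) ≠ 0) (hψ : ∀ i, ∃ b, aeval y (ψ i b) ≠ 0)
    (a : Fin n → ℝ) (l : (Fin n → ℝ) → ℝ) (hl : Continuous l)
    (hl' : ∀ c : ℝ, 0 ≤ c → ∀ w, l (c • w) = c * l w)
    (hs : ∀ w : Fin n → ℝ, w ≠ 0 → 0 ≤ ∑ i, a i * w i + l w →
      ∃ V V' : AbsoluteValue K ℝ, V ≠ V' ∧
        Over (adjoin k (Set.range y)) u w V ∧ Over (adjoin k (Set.range y)) u w V') :
    ∃ δ : ℝ, 0 < δ ∧ ∀ ε : ℝ, 0 < ε → ∃ (Θ : MvPolynomial (Fin g ⊕ Fin n) k) (c : ℝ),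
      aeval (Sum.elim y u) Θ ≠ 0 ∧ ∀ S : Finset (FinitePlace k), ∃ C : ℝ,
        ∀ (x : Fin g → k) (z : Fin n → k) (s : Fin q → k),
        (∀ P, aeval (Sum.elim y (Sum.elim u σ)) P = 0 → eval (Sum.elim x (Sum.elim z s)) P = 0) →
        eval (Sum.elim x z) Θ ≠ 0 →
        ∑ i, a i * (logHeight (fun b => eval x (φ i b)) - logHeight fun b => eval x (ψ i b)) +
          (∑ v : InfinitePlace k,
              v.mult * (l (fun i => log (v (z i))) + δ * ∑ i, |log (v (z i))|) +
            ∑ v ∈ S, (l (fun i => log (v (z i))) + δ * ∑ i, |log (v (z i))|)) ≤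
        ε * (logHeight x + ∑ i, logHeight₁ (z i)) + c * ∑ i, ∑ᶠ v ∈ (S : Set (FinitePlace k))ᶜ,
          dfc (z i) (fun b => eval x (φ i b)) (fun b => eval x (ψ i b)) v.1 + C := by
  have h := model hA ⟨hJ, h1, hy⟩ hu hK ha hφ hψ (T := fun δ X Y z S =>
    ∑ i, a i * (logHeight (X i) - logHeight (Y i)) +
      Tb.iS S fun w => l (fun i => log (w (z i))) + δ * ∑ i, |log (w (z i))|)
    fun E b1 b2 => half E hu b1 b2 (fun t => (ha.1 t).isIntegral) hl hl' hs
  simp only [Tb.iS_eq] at h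
  exact h

/-- An instance, for double covers of a split torus: if `P ^ 2 + R` is not a square and `P ^ 2`
dominates `R` in every direction of a closed half space, then off a hypersurface only finitely
many `S`-units make `P ^ 2 + R` a square. -/
theorem units (k : Type) [Field k] [NumberField k] (n : ℕ) (P R : MvPolynomial (Fin n) k)
    (hD : ¬IsSquare (P ^ 2 + R)) (a : Fin n → ℝ)
    (h : ∀ w : Fin n → ℝ, w ≠ 0 → 0 ≤ ∑ i, a i * w i → ∀ m ∈ R.support, ∃ m' ∈ P.support,
      ∑ i, m i * w i < 2 * ∑ i, m' i * w i) :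
    ∃ Θ : MvPolynomial (Fin n) k, Θ ≠ 0 ∧ ∀ S : Finset (FinitePlace k),
      {z : Fin n → k | (∀ i, ∀ v ∉ S, v (z i) = 1) ∧ eval z Θ ≠ 0 ∧
        IsSquare (eval z (P ^ 2 + R))}.Finite :=
  double P R hD a h

/-- The earlier form for one fibre coordinate: integral points on covers of the punctured cone,
with an exceptional set pulled back from the abelian variety. -/
theorem cone (k : Type) [Field k] [NumberField k] (N q : ℕ)
    (J : Ideal (MvPolynomial (Fin N) k)) (hJ : ∀ P ∈ J, ∀ d, homogeneousComponent d P ∈ J)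
    (hA : Abelian (J.map (MvPolynomial.map (algebraMap k (AlgebraicClosure k)))))
    (K : Type) [Field K] [Algebra k K] (ξ : Fin N → K) (σ : Fin q → K)
    (hξ : ∀ P, aeval ξ P = 0 ↔ P ∈ J)
    (hσ : ∀ l, IsAlgebraic (Algebra.adjoin k (Set.range ξ)) (σ l))
    (hK : adjoin k (Set.range (Sum.elim ξ σ)) = ⊤) (i : Fin N) (F : IntermediateField k K)
    (hF : F = adjoin k (Set.range fun j => ξ j / ξ i))
    (O O' : ValuationSubring K) (hO : O ≠ O') (hF' : ∀ z ∈ F, z ∈ O ∧ z ∈ O')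
    (hi : ξ i ∉ O ∧ ξ i ∉ O') :
    ∃ (Θ : MvPolynomial (Fin N) k) (d : ℕ) (c : ℝ), Θ.IsHomogeneous d ∧ Θ ∉ J ∧
      ∀ S : Finset (FinitePlace k), ∃ C : ℝ, ∀ (v : Fin N → k) (s : Fin q → k),
        (∀ P, aeval (Sum.elim ξ σ) P = 0 → eval (Sum.elim v s) P = 0) → eval v Θ ≠ 0 →
        logHeight (fun o : Option (Fin N) => o.elim 1 v) ≤
          c * ∑ᶠ w ∈ (S : Set (FinitePlace k))ᶜ,
            (|log (⨆ j, w (v j))| + log⁺ (⨆ l, w (s l))) + C :=
  Nf.split Nf.cf k N q J hJ hA K ξ σ hξ hσ hK i F hF O O' hO hF' hi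

/-- An instance of the earlier form: on an elliptic curve over the rationals only finitely many
points `(a / d ^ 2, b / d ^ 3)` in lowest terms have `a ^ 2 + b + n` a square. -/
theorem square (A B n : ℤ) (hΔ : 4 * A ^ 3 + 27 * B ^ 2 ≠ 0) (hn : n ≠ 0) :
    {p : ℤ × ℤ × ℤ | p.2.2 ≠ 0 ∧ IsCoprime p.1 p.2.2 ∧
      p.2.1 ^ 2 = p.1 ^ 3 + A * p.1 * p.2.2 ^ 4 + B * p.2.2 ^ 6 ∧
        IsSquare (p.1 ^ 2 + p.2.1 + n)}.Finite :=
  Sl.ex_square A B n hΔ hn

end Pool.Agent.Lib.MP_8865d3_nt.Old.SplitTorsors
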